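import Pool.Agent.Lib.MP_4dc748_co.LL.CertMain

/-!
# Consequences of a certificate in terms of the numbers of classes of each size
-/

set_option autoImplicit false

namespace Pool.Agent.Lib.MP_4dc748_co.CL82

open Pool.Agent.Lib.MP_4dc748_co.LL

/-- Number of classes with k points. -/
def Nk (C : Conf) (k : ℕ) : ℕ := (Finset.univ.filter fun p : Fin 21 => C.u p = k).card

variable (C : Conf)

/-- The total number of points is 99. -/
theorem sum_u : ∑ p : Fin 21, (C.u p : ℤ) = 99 := by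
  have h1 : ∑ p : Fin 21, ∑ i : Fin 5, (C.W (cl p i) : ℤ) = ∑ a : Fin 21, ∑ i : Fin 5, (C.W a : ℤ) :=
    sum_flags fun a _ => (C.W a : ℤ)
  have h2 : ∑ p : Fin 21, ∑ i : Fin 5, (C.u p : ℤ) = ∑ a : Fin 21, ∑ i : Fin 5, (C.u (cl a i) : ℤ) :=
    sum_flags fun _ p => (C.u p : ℤ)
  have h3 : ∀ p : Fin 21, ∑ i : Fin 5, (C.W (cl p i) : ℤ) = 99 + 4 * C.u p := by
    intro p
    have := C.hW' p
    exact_mod_cast this
  have h4 : ∀ a : Fin 21, ∑ i : Fin 5, (C.u (cl a i) : ℤ) = C.W a := by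
    intro a
    unfold Conf.W
    rw [Fin.sum_univ_five]
    push_cast
    ring
  simp only [h3, h4, Finset.sum_const, Finset.card_univ, Fintype.card_fin, nsmul_eq_mul, Finset.sum_add_distrib,
    ← Finset.mul_sum] at h1 h2
  push_cast at h1 h2
  linarith

/-- Sums over the classes by size. -/
theorem sum_by_size (m : ℕ) (hu : ∀ p, C.u p ≤ m) (f : ℕ → ℤ) :
    ∑ p : Fin 21, f (C.u p) = ∑ k ∈ Finset.range (m + 1), (Nk C k : ℤ) * f k := by
  have h : ∀ p ∈ (Finset.univ : Finset (Fin 21)), C.u p ∈ Finset.range (m + 1) := fun p _ =>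
    Finset.mem_range.2 (by have := hu p; omega)
  rw [← Finset.sum_fiberwise_of_maps_to h]
  refine Finset.sum_congr rfl fun k _ => ?_
  rw [Finset.sum_congr rfl (g := fun _ => f k) (fun p hp => by rw [(Finset.mem_filter.1 hp).2]), Finset.sum_const,
    nsmul_eq_mul]
  rfl

theorem sum_Nk (m : ℕ) (hu : ∀ p, C.u p ≤ m) : ∑ k ∈ Finset.range (m + 1), (Nk C k : ℤ) = 21 := by
  have := sum_by_size C m hu fun _ => 1
  simp only [Finset.sum_const, Finset.card_univ, Fintype.card_fin, mul_one] at this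
  rw [← this]
  norm_num

theorem sum_kNk (m : ℕ) (hu : ∀ p, C.u p ≤ m) : ∑ k ∈ Finset.range (m + 1), (Nk C k : ℤ) * k = 99 := by
  rw [← sum_u C, sum_by_size C m hu fun k => (k : ℤ)]

/-- The main inequality by sizes. -/
theorem main_by_size {D : Cert} (hl : D.lineOk = true) (hp : D.pointOk = true) (hu : ∀ p, C.u p ≤ D.umax) :
    ∑ k ∈ Finset.range (D.umax + 1), (Nk C k : ℤ) * D.alZ k ≤ 21 * D.gammaZ +
      (∑ s ∈ Finset.range (D.umax + 1), (Nk C s : ℤ) * ∑ t ∈ Finset.range (D.umax + 1), (Nk C t : ℤ) * D.qZ s t) +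
      4 * ∑ k ∈ Finset.range (D.umax + 1), (Nk C k : ℤ) * D.qZ k k := by
  have h := C.main hl hp hu
  rw [sum_by_size C D.umax hu fun k => D.alZ k, sum_by_size C D.umax hu fun k => D.qZ k k] at h
  have h1 : ∀ p : Fin 21, ∑ q : Fin 21, D.qZ (C.u p) (C.u q) =
      ∑ t ∈ Finset.range (D.umax + 1), (Nk C t : ℤ) * D.qZ (C.u p) t := fun p =>
    sum_by_size C D.umax hu fun t => D.qZ (C.u p) t
  simp only [h1] at h
  rw [sum_by_size C D.umax hu fun s => ∑ t ∈ Finset.range (D.umax + 1), (Nk C t : ℤ) * D.qZ s t] at h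
  exact h

/-- The form for certificates whose quadratic form is concentrated at the largest size. -/
theorem rest {D : Cert} (hl : D.lineOk = true) (hp : D.pointOk = true) (hu : ∀ p, C.u p ≤ D.umax) (a b κ : ℤ)
    (ha : ∀ u < D.umax, a ≤ D.alZ u) (hb : D.alZ D.umax = b)
    (hq : ∀ s ≤ D.umax, ∀ t ≤ D.umax, D.qZ s t = if s = D.umax ∧ t = D.umax then κ else 0) :
    a * (21 - Nk C D.umax) + b * Nk C D.umax ≤
      21 * D.gammaZ + κ * ((Nk C D.umax : ℤ) ^ 2 + 4 * Nk C D.umax) := by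
  have h := main_by_size C hl hp hu
  have h21 := sum_Nk C D.umax hu
  set N : ℤ := ((Nk C D.umax : ℕ) : ℤ) with hN
  have h1 : ∑ k ∈ Finset.range (D.umax + 1), (Nk C k : ℤ) * D.qZ k k = N * κ := by
    rw [Finset.sum_range_succ, Finset.sum_eq_zero, zero_add, hq _ le_rfl _ le_rfl, if_pos ⟨rfl, rfl⟩]
    intro k hk
    have hk' := Finset.mem_range.1 hk
    rw [hq k hk'.le k hk'.le, if_neg (by omega), mul_zero]
  have h2 : ∑ s ∈ Finset.range (D.umax + 1), (Nk C s : ℤ) *
      ∑ t ∈ Finset.range (D.umax + 1), (Nk C t : ℤ) * D.qZ s t = N * (N * κ) := by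
    rw [Finset.sum_range_succ, Finset.sum_eq_zero, zero_add, Finset.sum_range_succ, Finset.sum_eq_zero, zero_add,
      hq _ le_rfl _ le_rfl, if_pos ⟨rfl, rfl⟩]
    · intro k hk
      have hk' := Finset.mem_range.1 hk
      rw [hq _ le_rfl k hk'.le, if_neg (by omega), mul_zero]
    · intro k hk
      have hk' := Finset.mem_range.1 hk
      rw [Finset.sum_eq_zero, mul_zero]
      intro t ht
      have ht' := Finset.mem_range.1 ht
      rw [hq k hk'.le t (by omega), if_neg (by omega), mul_zero]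
  have h3 : a * (21 - N) + b * N ≤ ∑ k ∈ Finset.range (D.umax + 1), (Nk C k : ℤ) * D.alZ k := by
    rw [Finset.sum_range_succ] at h21 ⊢
    rw [hb]
    have h4 : a * (21 - N) = ∑ k ∈ Finset.range D.umax, (Nk C k : ℤ) * a := by
      rw [← Finset.sum_mul]
      have : ∑ k ∈ Finset.range D.umax, (Nk C k : ℤ) = 21 - N := by linarith
      rw [this]
      ring
    have h5 : ∑ k ∈ Finset.range D.umax, (Nk C k : ℤ) * a ≤ ∑ k ∈ Finset.range D.umax, (Nk C k : ℤ) * D.alZ k :=
      Finset.sum_le_sum fun k hk => mul_le_mul_of_nonneg_left (ha k (Finset.mem_range.1 hk)) (Int.natCast_nonneg _)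
    linarith
  rw [h1, h2] at h
  have h6 : 21 * D.gammaZ + N * (N * κ) + 4 * (N * κ) = 21 * D.gammaZ + κ * (N ^ 2 + 4 * N) := by ring
  linarith

end Pool.Agent.Lib.MP_4dc748_co.CL82
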