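import Pool.Agent.Lib.MP_4dc748_co.CL82.C1
import Pool.Agent.Lib.MP_4dc748_co.CL82.C2
import Pool.Agent.Lib.MP_4dc748_co.CL82.C3
import Pool.Agent.Lib.MP_4dc748_co.CL82.C4
import Pool.Agent.Lib.MP_4dc748_co.CL82.C5
import Pool.Agent.Lib.MP_4dc748_co.CL82.C6
import Pool.Agent.Lib.MP_4dc748_co.CL82.C7
import Pool.Agent.Lib.MP_4dc748_co.CL82.Gen

/-!
# No class of size eight, and the two possible vectors when all classes have at most six points
-/

set_option autoImplicit false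

namespace Pool.Agent.Lib.MP_4dc748_co.CL82

open Pool.Agent.Lib.MP_4dc748_co.LL

variable (C : Conf)

theorem chk6 : (∀ u < 8, (-45 : ℤ) ≤ c6.alZ u) ∧ c6.alZ 8 = 1956 ∧
    (∀ s ≤ 8, ∀ t ≤ 8, c6.qZ s t = if s = 8 ∧ t = 8 then 200 else 0) ∧ c6.gammaZ = 2 ∧ c6.umax = 8 := by
  decide +kernel

theorem chk7 : (∀ u < 8, (-21 : ℤ) ≤ c7.alZ u) ∧ c7.alZ 8 = 101 ∧
    (∀ s ≤ 8, ∀ t ≤ 8, c7.qZ s t = if s = 8 ∧ t = 8 then 4 else 0) ∧ c7.gammaZ = 2 ∧ c7.umax = 8 := by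
  decide +kernel

theorem chk1 : (∀ u < 6, (2 : ℤ) ≤ c1.alZ u) ∧ c1.alZ 6 = 275 ∧
    (∀ s ≤ 6, ∀ t ≤ 6, c1.qZ s t = if s = 6 ∧ t = 6 then 34 else 0) ∧ c1.gammaZ = 1 ∧ c1.umax = 6 := by
  decide +kernel

theorem chk2 : (∀ u < 6, (-154 : ℤ) ≤ c2.alZ u) ∧ c2.alZ 6 = 1233 ∧
    (∀ s ≤ 6, ∀ t ≤ 6, c2.qZ s t = if s = 6 ∧ t = 6 then 77 else 0) ∧ c2.gammaZ = 2 ∧ c2.umax = 6 := by
  decide +kernel

theorem chk3 : (∀ u < 6, (-973 : ℤ) ≤ c3.alZ u) ∧ c3.alZ 6 = 3289 ∧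
    (∀ s ≤ 6, ∀ t ≤ 6, c3.qZ s t = if s = 6 ∧ t = 6 then 158 else 0) ∧ c3.gammaZ = 2 ∧ c3.umax = 6 := by
  decide +kernel

theorem chk4 : (∀ u < 6, (-100 : ℤ) ≤ c4.alZ u) ∧ c4.alZ 6 = -129 ∧
    (∀ s ≤ 6, ∀ t ≤ 6, c4.qZ s t = if s = 6 ∧ t = 6 then -8 else 0) ∧ c4.gammaZ = -1 ∧ c4.umax = 6 := by
  decide +kernel

/-- There is no class with exactly eight points if all classes have at most eight points. -/
theorem no8 (hu : ∀ p, C.u p ≤ 8) : ∀ p, C.u p ≤ 7 := by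
  obtain ⟨a6, b6, q6, g6, u6⟩ := chk6
  obtain ⟨a7, b7, q7, g7, u7⟩ := chk7
  have r6 := rest C (D := c6) c6_line c6_point (by rw [u6]; exact hu) (-45) 1956 200 (by rw [u6]; exact a6)
    (by rw [u6]; exact b6) (by rw [u6]; exact q6)
  have r7 := rest C (D := c7) c7_line c7_point (by rw [u7]; exact hu) (-21) 101 4 (by rw [u7]; exact a7)
    (by rw [u7]; exact b7) (by rw [u7]; exact q7)
  rw [u6, g6] at r6
  rw [u7, g7] at r7
  have hs := sum_kNk C 8 hu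
  have hle : Nk C 8 ≤ 12 := by
    rw [Finset.sum_range_succ] at hs
    have : 0 ≤ ∑ k ∈ Finset.range 8, (Nk C k : ℤ) * k :=
      Finset.sum_nonneg fun k _ => mul_nonneg (Int.natCast_nonneg _) (Int.natCast_nonneg _)
    push_cast at hs
    omega
  have h0 : Nk C 8 = 0 := by
    generalize Nk C 8 = N at r6 r7 hle
    interval_cases N <;> first | rfl | (exfalso; norm_num at r6; done) | (exfalso; norm_num at r7)
  intro p
  have h1 := hu p
  rcases Nat.lt_or_ge (C.u p) 8 with h2 | h2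
  · omega
  · exfalso
    have h3 : C.u p = 8 := le_antisymm h1 h2
    have h4 : p ∈ Finset.univ.filter fun p : Fin 21 => C.u p = 8 := Finset.mem_filter.2 ⟨Finset.mem_univ _, h3⟩
    rw [Finset.card_eq_zero.1 h0] at h4
    exact absurd h4 (Finset.notMem_empty _)

/-- The number of classes of size six if all classes have at most six points. -/
theorem n6 (hu : ∀ p, C.u p ≤ 6) : Nk C 6 = 14 ∨ Nk C 6 = 15 := by
  obtain ⟨a1, b1, q1, g1, u1⟩ := chk1
  obtain ⟨a2, b2, q2, g2, u2⟩ := chk2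
  obtain ⟨a3, b3, q3, g3, u3⟩ := chk3
  obtain ⟨a4, b4, q4, g4, u4⟩ := chk4
  have r1 := rest C (D := c1) c1_line c1_point (by rw [u1]; exact hu) 2 275 34 (by rw [u1]; exact a1)
    (by rw [u1]; exact b1) (by rw [u1]; exact q1)
  have r2 := rest C (D := c2) c2_line c2_point (by rw [u2]; exact hu) (-154) 1233 77 (by rw [u2]; exact a2)
    (by rw [u2]; exact b2) (by rw [u2]; exact q2)
  have r3 := rest C (D := c3) c3_line c3_point (by rw [u3]; exact hu) (-973) 3289 158 (by rw [u3]; exact a3)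
    (by rw [u3]; exact b3) (by rw [u3]; exact q3)
  have r4 := rest C (D := c4) c4_line c4_point (by rw [u4]; exact hu) (-100) (-129) (-8) (by rw [u4]; exact a4)
    (by rw [u4]; exact b4) (by rw [u4]; exact q4)
  rw [u1, g1] at r1
  rw [u2, g2] at r2
  rw [u3, g3] at r3
  rw [u4, g4] at r4
  have hs := sum_kNk C 6 hu
  have hle : Nk C 6 ≤ 16 := by
    rw [Finset.sum_range_succ] at hs
    have : 0 ≤ ∑ k ∈ Finset.range 6, (Nk C k : ℤ) * k :=
      Finset.sum_nonneg fun k _ => mul_nonneg (Int.natCast_nonneg _) (Int.natCast_nonneg _)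
    push_cast at hs
    omega
  generalize Nk C 6 = N at r1 r2 r3 r4 hle
  interval_cases N <;> first | (left; rfl) | (right; rfl) | (exfalso; norm_num at r1; done) |
    (exfalso; norm_num at r2; done) | (exfalso; norm_num at r3; done) | (exfalso; norm_num at r4)

/-- Table for the last certificate: all vectors except two are excluded. -/
def vecOk (n0 n1 n2 n3 n4 n5 n6 : ℕ) : Bool :=
  (n0 == 1 && n1 == 0 && n2 == 5 && n3 == 0 && n4 == 0 && n5 == 1 && n6 == 14) ||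
  (n0 == 1 && n1 == 1 && n2 == 4 && n3 == 0 && n4 == 0 && n5 == 0 && n6 == 15) ||
  decide (21 * c5.gammaZ +
      (∑ s ∈ Finset.range 7, (([n0, n1, n2, n3, n4, n5, n6].getD s 0 : ℕ) : ℤ) *
        ∑ t ∈ Finset.range 7, (([n0, n1, n2, n3, n4, n5, n6].getD t 0 : ℕ) : ℤ) * c5.qZ s t) +
      4 * ∑ k ∈ Finset.range 7, (([n0, n1, n2, n3, n4, n5, n6].getD k 0 : ℕ) : ℤ) * c5.qZ k k <
    ∑ k ∈ Finset.range 7, (([n0, n1, n2, n3, n4, n5, n6].getD k 0 : ℕ) : ℤ) * c5.alZ k)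

/-- Bounded quantifier as a Boolean. -/
def allB (n : ℕ) (p : ℕ → Bool) : Bool := (List.range n).all p

theorem allB_true {n : ℕ} {p : ℕ → Bool} (h : allB n p = true) {k : ℕ} (hk : k < n) : p k = true :=
  List.all_eq_true.1 h k (List.mem_range.2 hk)

/-- The check for one vector. -/
def one (n0 n1 n2 n3 n4 n6 : ℕ) : Bool :=
  !(decide (n0 + n1 + n2 + n3 + n4 + n6 ≤ 21)) ||
  !(decide (n1 + 2 * n2 + 3 * n3 + 4 * n4 + 5 * (21 - (n0 + n1 + n2 + n3 + n4 + n6)) + 6 * n6 = 99)) ||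
  vecOk n0 n1 n2 n3 n4 (21 - (n0 + n1 + n2 + n3 + n4 + n6)) n6

theorem chk5 : (allB 8 fun n0 => allB 8 fun n1 => allB 8 fun n2 => allB 8 fun n3 => allB 8 fun n4 =>
    one n0 n1 n2 n3 n4 14 && one n0 n1 n2 n3 n4 15) = true := by
  decide +kernel

theorem chk5u : c5.umax = 6 := by decide +kernel

/-- The two possible vectors if all classes have at most six points. -/
theorem vec6 (hu : ∀ p, C.u p ≤ 6) :
    (Nk C 0 = 1 ∧ Nk C 1 = 0 ∧ Nk C 2 = 5 ∧ Nk C 3 = 0 ∧ Nk C 4 = 0 ∧ Nk C 5 = 1 ∧ Nk C 6 = 14) ∨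
    (Nk C 0 = 1 ∧ Nk C 1 = 1 ∧ Nk C 2 = 4 ∧ Nk C 3 = 0 ∧ Nk C 4 = 0 ∧ Nk C 5 = 0 ∧ Nk C 6 = 15) := by
  have hu' : ∀ p, C.u p ≤ c5.umax := by rw [chk5u]; exact hu
  have hm := main_by_size C c5_line c5_point hu'
  rw [chk5u] at hm
  have h21 := sum_Nk C 6 hu
  have h99 := sum_kNk C 6 hu
  have h6 := n6 C hu
  simp only [Finset.sum_range_succ, Finset.sum_range_zero, zero_add] at h21 h99
  push_cast at h21 h99
  have e5 : Nk C 5 = 21 - (Nk C 0 + Nk C 1 + Nk C 2 + Nk C 3 + Nk C 4 + Nk C 6) := by omega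
  have hc0 := allB_true (allB_true (allB_true (allB_true (allB_true chk5 (k := Nk C 0) (by omega)) (k := Nk C 1)
    (by omega)) (k := Nk C 2) (by omega)) (k := Nk C 3) (by omega)) (k := Nk C 4) (by omega)
  rw [Bool.and_eq_true] at hc0
  have hc1 : one (Nk C 0) (Nk C 1) (Nk C 2) (Nk C 3) (Nk C 4) (Nk C 6) = true := by
    rcases h6 with h | h <;> rw [h]
    · exact hc0.1
    · exact hc0.2
  have hc : vecOk (Nk C 0) (Nk C 1) (Nk C 2) (Nk C 3) (Nk C 4)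
      (21 - (Nk C 0 + Nk C 1 + Nk C 2 + Nk C 3 + Nk C 4 + Nk C 6)) (Nk C 6) = true := by
    unfold one at hc1
    simp only [Bool.or_eq_true, Bool.not_eq_true', decide_eq_false_iff_not] at hc1
    rcases hc1 with (hc1 | hc1) | hc1
    · exact absurd (by omega) hc1
    · exact absurd (by omega) hc1
    · exact hc1
  rw [← e5] at hc
  unfold vecOk at hc
  simp only [Bool.or_eq_true, Bool.and_eq_true, beq_iff_eq, decide_eq_true_eq] at hc
  rcases hc with (hc | hc) | hc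
  · left
    omega
  · right
    omega
  · exfalso
    simp only [Finset.sum_range_succ, Finset.sum_range_zero, zero_add, List.getD_cons_zero, List.getD_cons_succ] at hc hm
    linarith

end Pool.Agent.Lib.MP_4dc748_co.CL82
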